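import Pool.Agent.H654R5.PT.Stm

set_option autoImplicit false

/-! RES: few common values of two polynomials. -/

namespace Pool.Agent.H654R5.PT.RES

open Pool.Agent.H654R5.PT Polynomial

/-- the polynomial with coefficients `x` -/
noncomputable def RP (p : ℕ) (x : List Bool) : Polynomial (ZMod p) :=
  x.foldr (fun b acc => C ((b.toNat : ℕ) : ZMod p) + X * acc) 0

lemma RP_cons (p : ℕ) (b : Bool) (x : List Bool) :
    RP p (b :: x) = C ((b.toNat : ℕ) : ZMod p) + X * RP p x := rfl

lemma RP_coeff (p : ℕ) (x : List Bool) (i : ℕ) :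
    (RP p x).coeff i = (((x.getD i false).toNat : ℕ) : ZMod p) := by
  induction x generalizing i with
  | nil => simp [RP]
  | cons b x ih =>
    rw [RP_cons]
    cases i with
    | zero => simp
    | succ i =>
      rw [coeff_add, coeff_X_mul, ih, coeff_C_succ, zero_add, List.getD_cons_succ]

lemma RP_degree (p : ℕ) (x : List Bool) : (RP p x).degree < x.length := by
  rw [degree_lt_iff_coeff_zero]
  intro m hm
  rw [RP_coeff, List.getD_eq_default _ _ hm]
  simp

lemma RP_eval (p : ℕ) (x : List Bool) (α : ℕ) :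
    (RP p x).eval (α : ZMod p) = ((resid p x α : ℕ) : ZMod p) := by
  induction x with
  | nil => simp [RP, resid]
  | cons b x ih =>
    have h : resid p (b :: x) α = (b.toNat + α * resid p x α) % p := rfl
    rw [RP_cons, eval_add, eval_C, eval_mul, eval_X, ih, h, ZMod.natCast_mod]
    push_cast
    ring

lemma roots_lt (p : ℕ) (hp : p.Prime) (Q n : ℕ) (hQ : Q ≤ p) (f : Polynomial (ZMod p)) (hf : f ≠ 0)
    (hn : f.degree < n) (S : Finset ℕ) (hS : S ⊆ Finset.range Q)
    (h : ∀ α ∈ S, f.eval (α : ZMod p) = 0) : S.card < n := by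
  classical
  haveI : Fact p.Prime := ⟨hp⟩
  have h1 : S.card = (S.image (fun α : ℕ => (α : ZMod p))).card := by
    rw [Finset.card_image_of_injOn]
    intro a ha b hb hab
    have ha' : a < p := lt_of_lt_of_le (Finset.mem_range.1 (hS ha)) hQ
    have hb' : b < p := lt_of_lt_of_le (Finset.mem_range.1 (hS hb)) hQ
    have := (ZMod.natCast_eq_natCast_iff' a b p).1 hab
    rwa [Nat.mod_eq_of_lt ha', Nat.mod_eq_of_lt hb'] at this
  have h2 : S.image (fun α : ℕ => (α : ZMod p)) ⊆ f.roots.toFinset := by
    intro z hz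
    rw [Finset.mem_image] at hz
    obtain ⟨α, hα, rfl⟩ := hz
    rw [Multiset.mem_toFinset, mem_roots hf]
    exact h α hα
  have h3 : f.natDegree < n := by
    rw [degree_eq_natDegree hf] at hn
    exact_mod_cast hn
  calc S.card = (S.image (fun α : ℕ => (α : ZMod p))).card := h1
    _ ≤ f.roots.toFinset.card := Finset.card_le_card h2
    _ ≤ Multiset.card f.roots := Multiset.toFinset_card_le _
    _ ≤ f.natDegree := card_roots' f
    _ < n := h3

lemma toNat_cast_inj (p : ℕ) (hp : p.Prime) (a b : Bool)
    (h : ((a.toNat : ℕ) : ZMod p) = ((b.toNat : ℕ) : ZMod p)) : a = b := by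
  haveI : Fact p.Prime := ⟨hp⟩
  cases a <;> cases b <;> simp at h ⊢

theorem RES_proof : S_RES := by
  intro p x y Q hp hQ hxy
  haveI : Fact p.Prime := ⟨hp⟩
  refine ⟨?_, ?_, ?_⟩
  · intro α
    cases x with
    | nil => exact hp.pos
    | cons b x => exact Nat.mod_lt _ hp.pos
  · intro hne
    refine roots_lt p hp Q x.length hQ (RP p x - RP p y) ?_ ?_ _ (Finset.filter_subset _ _) ?_
    · intro h0
      apply hne
      refine List.ext_getElem hxy fun i hi hi' => ?_
      have h1 : (RP p x).coeff i = (RP p y).coeff i := by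
        rw [sub_eq_zero.1 h0]
      rw [RP_coeff, RP_coeff, List.getD_eq_getElem _ _ hi, List.getD_eq_getElem _ _ hi'] at h1
      exact toNat_cast_inj p hp _ _ h1
    · refine (degree_sub_le _ _).trans_lt (max_lt (RP_degree p x) ?_)
      rw [hxy]
      exact RP_degree p y
    · intro α hα
      rw [Finset.mem_filter] at hα
      rw [eval_sub, RP_eval, RP_eval, hα.2, sub_self]
  · intro ht
    refine roots_lt p hp Q x.length hQ (RP p x) ?_ (RP_degree p x) _
      (Finset.filter_subset _ _) ?_
    · intro h0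
      obtain ⟨i, hi, hxi⟩ := List.getElem_of_mem ht
      have h1 : (RP p x).coeff i = 0 := by rw [h0, coeff_zero]
      rw [RP_coeff, List.getD_eq_getElem _ _ hi, hxi] at h1
      simp at h1
    · intro α hα
      rw [Finset.mem_filter] at hα
      rw [RP_eval, hα.2, Nat.cast_zero]

end Pool.Agent.H654R5.PT.RES
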